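import Mathlib
import Pool.Agent.Lib.MP_5e7226_co.RG.Sys1

/-!
# MP_1dedaf_gt, RG: finite reflection groups and their chambers, definitions
-/

set_option autoImplicit false

namespace Pool.Agent.Lib.MP_1dedaf_gt.RG

/-- Euclidean space. -/
abbrev V (d : ℕ) := EuclideanSpace ℝ (Fin d)

/-- The reflection in the hyperplane orthogonal to `β` (a formula, also for `β = 0`). -/
noncomputable def rf {d : ℕ} (β y : V d) : V d := y - (2 * inner ℝ y β / inner ℝ β β) • β

/-- `β` is a unit vector and `G` contains the reflection in its orthogonal hyperplane. -/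
def Root {d : ℕ} (G : Subgroup (V d ≃ₗᵢ[ℝ] V d)) (β : V d) : Prop :=
  ‖β‖ = 1 ∧ ∃ g ∈ G, ∀ y, g y = rf β y

/-- `G` is a finite group generated by reflections, without nonzero fixed vector. -/
structure Grp {d : ℕ} (G : Subgroup (V d ≃ₗᵢ[ℝ] V d)) : Prop where
  fin : Finite G
  gen : G = Subgroup.closure {g | g ∈ G ∧ ∃ β : V d, β ≠ 0 ∧ ∀ y, g y = rf β y}
  ess : ∀ v : V d, (∀ g ∈ G, g v = v) → v = 0

/-- Nonnegative combinations of the vectors `α i`. -/
def cone {d m : ℕ} (α : Fin m → V d) : Set (V d) :=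
  {v | ∃ c : Fin m → ℝ, (∀ i, 0 ≤ c i) ∧ v = ∑ i, c i • α i}

/-- `α` is a simple system with the positive roots `<ρ, β> > 0`. -/
structure Simp {d : ℕ} (G : Subgroup (V d ≃ₗᵢ[ℝ] V d)) (ρ : V d) (α : Fin d → V d) : Prop where
  gen : ∀ β, Root G β → (inner ℝ ρ β : ℝ) ≠ 0
  root : ∀ i, Root G (α i)
  pos : ∀ i, 0 < (inner ℝ ρ (α i) : ℝ)
  indep : LinearIndependent ℝ α
  obt : ∀ i j, i ≠ j → (inner ℝ (α i) (α j) : ℝ) ≤ 0
  con : ∀ β, Root G β → 0 < (inner ℝ ρ β : ℝ) → β ∈ cone α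

end Pool.Agent.Lib.MP_1dedaf_gt.RG

/-!
# MP_1dedaf_gt, RG, row G1: roots
-/

set_option autoImplicit false

namespace Pool.Agent.Lib.MP_1dedaf_gt.RG

section

variable {d : ℕ} {G : Subgroup (V d ≃ₗᵢ[ℝ] V d)}

/-! ROW G1: roots. -/

private lemma g1_rf_neg (β y : V d) : rf (-β) y = rf β y := by
  unfold rf
  rw [inner_neg_right, inner_neg_right, inner_neg_left, neg_neg, mul_neg, neg_div, smul_neg,
    neg_smul, neg_neg]

lemma root_neg {β : V d} (h : Root G β) : Root G (-β) := by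
  obtain ⟨h1, g, hg, hy⟩ := h
  exact ⟨by rw [norm_neg]; exact h1, g, hg, fun y => by rw [hy, g1_rf_neg]⟩

lemma root_map {β : V d} (h : Root G β) {g : V d ≃ₗᵢ[ℝ] V d} (hg : g ∈ G) : Root G (g β) := by
  obtain ⟨h1, s, hs, hy⟩ := h
  refine ⟨by rw [LinearIsometryEquiv.norm_map]; exact h1, g * s * g⁻¹,
    G.mul_mem (G.mul_mem hg hs) (G.inv_mem hg), fun y => ?_⟩
  have h2 : (g * s * g⁻¹) y = g (s (g⁻¹ y)) := rfl
  have h3 : g (g⁻¹ y) = y := g.apply_symm_apply y
  have h4 : (inner ℝ (g⁻¹ y) β : ℝ) = inner ℝ y (g β) := by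
    rw [← LinearIsometryEquiv.inner_map_map g, h3]
  rw [h2, hy]
  unfold rf
  rw [map_sub, map_smul, h3, h4, LinearIsometryEquiv.inner_map_map]

/-- Two unit vectors with the same reflection. -/
lemma root_uniq {β γ : V d} (hβ : ‖β‖ = 1) (hγ : ‖γ‖ = 1) (h : ∀ y, rf β y = rf γ y) :
    β = γ ∨ β = -γ := by
  have hb : (inner ℝ β β : ℝ) = 1 := by
    rw [real_inner_self_eq_norm_sq, hβ]
    norm_num
  have hc : (inner ℝ γ γ : ℝ) = 1 := by
    rw [real_inner_self_eq_norm_sq, hγ]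
    norm_num
  have h1 := h β
  unfold rf at h1
  rw [hb, hc, mul_one, div_one, div_one] at h1
  have h2 : β = (inner ℝ β γ : ℝ) • γ := by
    have h3 : (2 : ℝ) • β = (2 * (inner ℝ β γ : ℝ)) • γ := by
      have h4 := congrArg (fun z => β - z) h1
      simpa using h4
    rw [mul_smul] at h3
    exact smul_right_injective _ (two_ne_zero) h3
  have h3 := hβ
  rw [h2, norm_smul, hγ, mul_one, Real.norm_eq_abs] at h3
  rcases abs_eq (zero_le_one' ℝ) |>.1 h3 with h4 | h4
  · left
    rw [h4, one_smul] at h2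
    exact h2
  · right
    rw [h4, neg_one_smul] at h2
    exact h2

lemma root_fin (h : Grp G) : {β | Root G β}.Finite := by
  have h1 : {β | Root G β} ⊆ ⋃ g ∈ (G : Set (V d ≃ₗᵢ[ℝ] V d)),
      {β | ‖β‖ = 1 ∧ ∀ y, g y = rf β y} := by
    rintro β ⟨h2, g, hg, hy⟩
    exact Set.mem_biUnion hg ⟨h2, hy⟩
  refine Set.Finite.subset (Set.Finite.biUnion ?_ fun g _ => ?_) h1
  · have := h.fin
    exact Set.toFinite _
  · by_cases hne : ({β : V d | ‖β‖ = 1 ∧ ∀ y, g y = rf β y}).Nonempty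
    · obtain ⟨γ, hγ, hy⟩ := hne
      refine Set.Finite.subset (Set.toFinite {γ, -γ}) ?_
      rintro β ⟨hβ, hyβ⟩
      rcases root_uniq hβ hγ fun y => by rw [← hyβ, hy] with h3 | h3
      · exact Or.inl h3
      · exact Or.inr h3
    · rw [Set.not_nonempty_iff_eq_empty.1 hne]
      exact Set.finite_empty

/-- A generic vector. -/
lemma exists_gen (F : Set (V d)) (hF : F.Finite) (h0 : (0 : V d) ∉ F) :
    ∃ ρ : V d, ∀ β ∈ F, (inner ℝ ρ β : ℝ) ≠ 0 := by
  induction F, hF using Set.Finite.induction_on with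
  | empty => exact ⟨0, fun β hβ => absurd hβ (Set.notMem_empty β)⟩
  | @insert β F hβ hF ih =>
    obtain ⟨ρ, hρ⟩ := ih fun h1 => h0 (Set.mem_insert_of_mem _ h1)
    have hβ0 : (inner ℝ β β : ℝ) ≠ 0 := by
      intro h1
      exact h0 (by rw [← inner_self_eq_zero.1 h1]; exact Set.mem_insert _ _)
    -- bad values of `t`
    have hbad : ((fun γ => -(inner ℝ ρ γ : ℝ) / inner ℝ β γ) '' insert β F).Finite :=
      (hF.insert β).image _
    obtain ⟨t, ht⟩ := hbad.exists_notMem
    refine ⟨ρ + t • β, fun γ hγ h1 => ht ⟨γ, hγ, ?_⟩⟩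
    rw [inner_add_left, real_inner_smul_left] at h1
    have h2 : (inner ℝ β γ : ℝ) ≠ 0 := by
      intro h3
      rw [h3, mul_zero, add_zero] at h1
      rcases hγ with h4 | h4
      · rw [h4] at h3
        exact hβ0 h3
      · exact hρ γ h4 h1
    show -(inner ℝ ρ γ : ℝ) / inner ℝ β γ = t
    rw [div_eq_iff h2]
    linarith

/-- A generic vector of a hyperplane. -/
lemma exists_gen' (β : V d) (F : Set (V d)) (hF : F.Finite) (h0 : ∀ γ ∈ F, ∀ c : ℝ, γ ≠ c • β) :
    ∃ y : V d, (inner ℝ y β : ℝ) = 0 ∧ ∀ γ ∈ F, (inner ℝ y γ : ℝ) ≠ 0 := by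
  obtain ⟨ρ, hρ⟩ := exists_gen ((fun γ : V d => γ - ((inner ℝ γ β : ℝ) / inner ℝ β β) • β) '' F)
    (hF.image _) (by
      rintro ⟨γ, hγ, h1⟩
      exact h0 γ hγ _ (sub_eq_zero.1 h1))
  refine ⟨ρ - ((inner ℝ ρ β : ℝ) / inner ℝ β β) • β, ?_, fun γ hγ h1 => ?_⟩
  · rw [inner_sub_left, real_inner_smul_left]
    by_cases hb : (inner ℝ β β : ℝ) = 0
    · rw [inner_self_eq_zero.1 hb, inner_zero_right, inner_zero_right]
      simp
    · rw [div_mul_cancel₀ _ hb, sub_self]
  · refine hρ _ ⟨γ, hγ, rfl⟩ ?_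
    rw [inner_sub_left, real_inner_smul_left] at h1
    rw [inner_sub_right, real_inner_smul_right, real_inner_comm β γ]
    rw [← h1]
    ring

end

end Pool.Agent.Lib.MP_1dedaf_gt.RG

/-!
# MP_1dedaf_gt, RG, row G2: a simple system exists
-/

set_option autoImplicit false

namespace Pool.Agent.Lib.MP_1dedaf_gt.RG

/-- A vector orthogonal to all roots is fixed by the group. -/
private lemma g2_fix {d : ℕ} {G : Subgroup (V d ≃ₗᵢ[ℝ] V d)} (h : Grp G) {w : V d}
    (hw : ∀ β, Root G β → (inner ℝ w β : ℝ) = 0) : w = 0 := by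
  apply h.ess
  intro g hg
  rw [h.gen] at hg
  induction hg using Subgroup.closure_induction with
  | mem g hg =>
    obtain ⟨hgG, β, hβ, hgb⟩ := hg
    have hn : ‖β‖ ≠ 0 := norm_ne_zero_iff.2 hβ
    have h1 : Root G (‖β‖⁻¹ • β) := by
      refine ⟨?_, g, hgG, ?_⟩
      · rw [norm_smul, norm_inv, norm_norm, inv_mul_cancel₀ hn]
      · intro y
        rw [hgb y]
        unfold rf
        rw [real_inner_smul_right, real_inner_smul_left, real_inner_smul_right, smul_smul]
        congr 2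
        have h2 : (inner ℝ β β : ℝ) ≠ 0 := by
          rw [real_inner_self_eq_norm_sq]
          positivity
        field_simp
    have h2 := hw _ h1
    rw [real_inner_smul_right, mul_eq_zero] at h2
    have h3 : (inner ℝ w β : ℝ) = 0 := h2.resolve_left (inv_ne_zero hn)
    rw [hgb w]
    unfold rf
    rw [h3, mul_zero, zero_div, zero_smul, sub_zero]
  | one => rfl
  | mul a b _ _ ha hb =>
    show a (b w) = w
    rw [hb, ha]
  | inv a _ ha =>
    show a.symm w = w
    rw [LinearIsometryEquiv.symm_apply_eq]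
    exact ha.symm

/-- ROW G2. -/
theorem exists_simp {d : ℕ} {G : Subgroup (V d ≃ₗᵢ[ℝ] V d)} (h : Grp G) :
    ∃ ρ α, Simp G ρ α := by
  classical
  have hone : ∀ β : V d, Root G β → (inner ℝ β β : ℝ) = 1 := by
    intro β hβ
    rw [real_inner_self_eq_norm_sq, hβ.1, one_pow]
  have hspan : Submodule.span ℝ {β : V d | Root G β} = ⊤ := by
    rw [← Submodule.orthogonal_eq_bot_iff, Submodule.eq_bot_iff]
    intro w hw
    apply g2_fix h
    intro β hβ
    rw [real_inner_comm]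
    exact hw β (Submodule.subset_span hβ)
  obtain ⟨b, f, h1, h2, h3, h4, h5, h6⟩ :=
    Pool.Agent.Lib.MP_5e7226_co.RG.exists_simple_basis (V := V d) (B := innerₗ (V d))
      (fun x y => by
        show (inner ℝ x y : ℝ) = inner ℝ y x
        rw [real_inner_comm])
      (fun x hx => by
        show 0 < (inner ℝ x x : ℝ)
        exact real_inner_self_pos.2 hx)
      (Φ := {β : V d | Root G β}) (root_fin h)
      (fun r hr x hx => by
        obtain ⟨g, hg, hgr⟩ := hr.2
        have h1 := root_map hx hg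
        rw [hgr x] at h1
        unfold rf at h1
        rw [hone r hr, div_one, real_inner_comm] at h1
        exact h1)
      (fun r hr => root_neg hr) (fun r hr => hone r hr) hspan (finrank_euclideanSpace_fin)
  obtain ⟨ρ, hρ⟩ : ∃ ρ : V d, ∀ x, (inner ℝ ρ x : ℝ) = f x := by
    refine ⟨(InnerProductSpace.toDual ℝ (V d)).symm (LinearMap.toContinuousLinearMap f), ?_⟩
    intro x
    rw [InnerProductSpace.toDual_symm_apply]
    rfl
  refine ⟨ρ, fun i => b i, ⟨?_, h1, ?_, b.linearIndependent, ?_, ?_⟩⟩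
  · intro β hβ
    rw [hρ]
    exact h3 β hβ
  · intro i
    rw [hρ]
    exact h4 i
  · intro i j hij
    exact h2 i j hij
  · intro β hβ hp
    rw [hρ] at hp
    exact ⟨fun i => b.repr β i, h5 β hβ hp, (b.sum_repr β).symm⟩

end Pool.Agent.Lib.MP_1dedaf_gt.RG

/-!
# MP_1dedaf_gt, RG, row G3: simple reflections and positive roots
-/

set_option autoImplicit false

namespace Pool.Agent.Lib.MP_1dedaf_gt.RG

section

variable {d : ℕ} {G : Subgroup (V d ≃ₗᵢ[ℝ] V d)} {ρ : V d} {α : Fin d → V d}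

/-! ROW G3: a simple reflection permutes the other positive roots. -/
theorem perm_pos (h : Grp G) (hs : Simp G ρ α) (i : Fin d) {β : V d} (hβ : Root G β)
    (hp : 0 < (inner ℝ ρ β : ℝ)) (hne : β ≠ α i) : 0 < (inner ℝ ρ (rf (α i) β) : ℝ) := by
  obtain ⟨c, hc, hcβ⟩ := hs.con β hβ hp
  have hk : ∃ k, k ≠ i ∧ 0 < c k := by
    by_contra hcon
    push Not at hcon
    have h1 : β = c i • α i := by
      rw [hcβ]
      refine Finset.sum_eq_single_of_mem i (Finset.mem_univ _) fun k _ hki => ?_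
      rw [le_antisymm (hcon k hki) (hc k), zero_smul]
    have h2 : c i = 1 := by
      have h3 := hβ.1
      rw [h1, norm_smul, (hs.root i).1, mul_one, Real.norm_eq_abs, abs_of_nonneg (hc i)] at h3
      exact h3
    rw [h2, one_smul] at h1
    exact hne h1
  obtain ⟨k, hki, hk0⟩ := hk
  obtain ⟨g, hg, hgy⟩ := (hs.root i).2
  have hr : Root G (rf (α i) β) := by
    rw [← hgy]
    exact root_map hβ hg
  by_contra hcon
  have hn : 0 < (inner ℝ ρ (-(rf (α i) β)) : ℝ) := by
    rw [inner_neg_right]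
    have h1 := lt_of_le_of_ne (not_lt.1 hcon) (hs.gen _ hr)
    linarith
  obtain ⟨c', hc', hcβ'⟩ := hs.con _ (root_neg hr) hn
  have h1 : ∑ l, (c l + c' l - if l = i then 2 * (inner ℝ β (α i) : ℝ) / inner ℝ (α i) (α i)
      else 0) • α l = 0 := by
    simp only [sub_smul, add_smul, Finset.sum_sub_distrib, Finset.sum_add_distrib, ite_smul,
      zero_smul, Finset.sum_ite_eq', Finset.mem_univ, if_true]
    rw [← hcβ, ← hcβ']
    unfold rf
    abel
  have h2 := Fintype.linearIndependent_iff.1 hs.indep _ h1 k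
  rw [if_neg hki, sub_zero] at h2
  linarith [hc' k]

end

end Pool.Agent.Lib.MP_1dedaf_gt.RG

/-!
# MP_1dedaf_gt, RG, row G4: simple reflections generate
-/

set_option autoImplicit false

namespace Pool.Agent.Lib.MP_1dedaf_gt.RG

section

variable {d : ℕ} {G : Subgroup (V d ≃ₗᵢ[ℝ] V d)} {ρ : V d} {α : Fin d → V d}

/-! ROW G4: the group is generated by the simple reflections. -/

private lemma g4_rf_smul (β y : V d) {c : ℝ} (hc : c ≠ 0) : rf (c • β) y = rf β y := by
  unfold rf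
  rw [real_inner_smul_right, real_inner_smul_left, real_inner_smul_right, smul_smul]
  congr 2
  by_cases hb : (inner ℝ β β : ℝ) = 0
  · rw [hb]
    simp
  · field_simp

private lemma g4_rf_map (g : V d ≃ₗᵢ[ℝ] V d) (β y : V d) : rf (g β) (g y) = g (rf β y) := by
  unfold rf
  rw [LinearIsometryEquiv.inner_map_map, LinearIsometryEquiv.inner_map_map, map_sub, map_smul]

/-- The simple reflections generate all reflections. -/
private lemma g4_refl (h : Grp G) (hs : Simp G ρ α) {β : V d} (hβ : Root G β)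
    {g : V d ≃ₗᵢ[ℝ] V d} (hg : ∀ y, g y = rf β y) :
    g ∈ Subgroup.closure {g : V d ≃ₗᵢ[ℝ] V d | ∃ i, ∀ y, g y = rf (α i) y} := by
  obtain ⟨H, hH⟩ : ∃ H : Subgroup (V d ≃ₗᵢ[ℝ] V d), H =
      Subgroup.closure {g : V d ≃ₗᵢ[ℝ] V d | ∃ i, ∀ y, g y = rf (α i) y} := ⟨_, rfl⟩
  have hHG : H ≤ G := by
    rw [hH, Subgroup.closure_le]
    rintro x ⟨i, hi⟩
    obtain ⟨g', hg', hy'⟩ := (hs.root i).2
    have h1 : x = g' := by
      ext1 y
      rw [hi, hy']
    rw [h1]
    exact hg'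
  have hfin : Finite H := by
    have := h.fin
    exact Finite.of_injective (fun x : H => (⟨x.1, hHG x.2⟩ : G)) fun a b hab =>
      Subtype.ext (congrArg (fun z : G => z.1) hab)
  -- the generic vector
  obtain ⟨y, hy0, hy⟩ := exists_gen' β {γ | Root G γ ∧ γ ≠ β ∧ γ ≠ -β}
    ((root_fin h).subset fun γ hγ => hγ.1) (by
      rintro γ ⟨h1, h2, h3⟩ c hc
      have h4 := h1.1
      rw [hc, norm_smul, hβ.1, mul_one, Real.norm_eq_abs] at h4
      rcases abs_eq (zero_le_one' ℝ) |>.1 h4 with h5 | h5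
      · rw [h5, one_smul] at hc
        exact h2 hc
      · rw [h5, neg_one_smul] at hc
        exact h3 hc)
  obtain ⟨w, hw⟩ := Finite.exists_max fun x : H => (inner ℝ (x.1 y) ρ : ℝ)
  have hdom : ∀ i, 0 ≤ (inner ℝ (w.1 y) (α i) : ℝ) := by
    intro i
    obtain ⟨s, hs', hsy⟩ := (hs.root i).2
    have hsH : s ∈ H := by
      rw [hH]
      exact Subgroup.subset_closure ⟨i, hsy⟩
    have h1 := hw ⟨s * w.1, H.mul_mem hsH w.2⟩
    have h2 : (s * w.1) y = rf (α i) (w.1 y) := hsy _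
    have h3 : (inner ℝ (α i) (α i) : ℝ) = 1 := by
      rw [real_inner_self_eq_norm_sq, (hs.root i).1]
      norm_num
    change (inner ℝ ((s * w.1) y) ρ : ℝ) ≤ _ at h1
    rw [h2] at h1
    unfold rf at h1
    rw [inner_sub_left, real_inner_smul_left, h3, div_one] at h1
    have h4 := hs.pos i
    rw [real_inner_comm] at h4
    by_contra hcon
    have h5 := mul_neg_of_neg_of_pos (not_le.1 hcon) h4
    nlinarith
  have hr : Root G (w.1 β) := root_map hβ (hHG w.2)
  have hin : (inner ℝ (w.1 y) (w.1 β) : ℝ) = 0 := by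
    rw [LinearIsometryEquiv.inner_map_map, hy0]
  -- a sign and the coefficients
  obtain ⟨b, hb, hbp, hb0⟩ : ∃ b, Root G b ∧ 0 < (inner ℝ ρ b : ℝ) ∧
      (inner ℝ (w.1 y) b : ℝ) = 0 := by
    rcases lt_or_gt_of_ne (hs.gen _ hr) with h1 | h1
    · exact ⟨-(w.1 β), root_neg hr, by rw [inner_neg_right]; linarith,
        by rw [inner_neg_right, hin, neg_zero]⟩
    · exact ⟨w.1 β, hr, h1, hin⟩
  obtain ⟨c, hc, hcb⟩ := hs.con b hb hbp
  have hsum : ∑ i, c i * (inner ℝ (w.1 y) (α i) : ℝ) = 0 := by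
    rw [hcb, inner_sum] at hb0
    simpa only [real_inner_smul_right] using hb0
  have hz := (Finset.sum_eq_zero_iff_of_nonneg fun i _ => mul_nonneg (hc i) (hdom i)).1 hsum
  have hex : ∃ i, c i ≠ 0 := by
    by_contra hcon
    push Not at hcon
    have h1 : b = 0 := by
      rw [hcb]
      exact Finset.sum_eq_zero fun i _ => by rw [hcon i, zero_smul]
    have h2 := hb.1
    rw [h1, norm_zero] at h2
    exact zero_ne_one h2
  obtain ⟨i, hi⟩ := hex
  have h1 : (inner ℝ (w.1 y) (α i) : ℝ) = 0 :=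
    (mul_eq_zero.1 (hz i (Finset.mem_univ i))).resolve_left hi
  have hwinv : w.1⁻¹ ∈ G := G.inv_mem (hHG w.2)
  have h2 : w.1 (w.1⁻¹ (α i)) = α i := w.1.apply_symm_apply (α i)
  have h3 : (inner ℝ y (w.1⁻¹ (α i)) : ℝ) = 0 := by
    rw [← LinearIsometryEquiv.inner_map_map w.1, h2, h1]
  have h4 : Root G (w.1⁻¹ (α i)) := root_map (hs.root i) hwinv
  have h5 : w.1⁻¹ (α i) = β ∨ w.1⁻¹ (α i) = -β := by
    by_contra hcon
    rw [not_or] at hcon
    exact hy _ ⟨h4, hcon.1, hcon.2⟩ h3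
  have h6 : ∀ z, rf (w.1⁻¹ (α i)) z = rf β z := by
    intro z
    rcases h5 with h7 | h7
    · rw [h7]
    · rw [h7, ← neg_one_smul ℝ β]
      exact g4_rf_smul β z (by norm_num)
  obtain ⟨s, hs', hsy⟩ := (hs.root i).2
  have hsH : s ∈ H := by
    rw [hH]
    exact Subgroup.subset_closure ⟨i, hsy⟩
  have h7 : g = w.1⁻¹ * s * w.1 := by
    ext1 z
    have h8 : w.1⁻¹ (s (w.1 z)) = g z := by
      rw [hg, ← h6, hsy]
      have h9 := g4_rf_map w.1⁻¹ (α i) (w.1 z)
      have h10 : w.1⁻¹ (w.1 z) = z := w.1.symm_apply_apply z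
      rw [h10] at h9
      exact h9.symm
    exact h8.symm
  rw [h7, ← hH]
  exact H.mul_mem (H.mul_mem (H.inv_mem w.2) hsH) w.2

theorem gen_simple (h : Grp G) (hs : Simp G ρ α) :
    G = Subgroup.closure {g | ∃ i, ∀ y, g y = rf (α i) y} := by
  apply le_antisymm
  · intro x hx
    rw [h.gen] at hx
    refine (Subgroup.closure_le _).2 ?_ hx
    rintro g ⟨hg, β, hβ, hgβ⟩
    have hn : ‖β‖⁻¹ ≠ 0 := inv_ne_zero (norm_ne_zero_iff.2 hβ)
    have h1 : ∀ y, g y = rf (‖β‖⁻¹ • β) y := fun y => by rw [g4_rf_smul β y hn, hgβ]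
    have h2 : Root G (‖β‖⁻¹ • β) := by
      refine ⟨?_, g, hg, h1⟩
      rw [norm_smul, norm_inv, norm_norm, inv_mul_cancel₀ (norm_ne_zero_iff.2 hβ)]
    exact g4_refl h hs h2 h1
  · rw [Subgroup.closure_le]
    rintro x ⟨i, hi⟩
    obtain ⟨g', hg', hy'⟩ := (hs.root i).2
    have h1 : x = g' := by
      ext1 y
      rw [hi, hy']
    rw [h1]
    exact hg'

end

end Pool.Agent.Lib.MP_1dedaf_gt.RG

/-!
# MP_1dedaf_gt, RG, row G5: an element which keeps the positive roots is `1`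
-/

set_option autoImplicit false

namespace Pool.Agent.Lib.MP_1dedaf_gt.RG

section

variable {d : ℕ} {G : Subgroup (V d ≃ₗᵢ[ℝ] V d)} {ρ : V d} {α : Fin d → V d}

/-! ROW G5: an element which keeps the positive roots is `1`. -/

private lemma g5_ne {β : V d} (h : Root G β) : (inner ℝ β β : ℝ) ≠ 0 := by
  rw [real_inner_self_eq_norm_sq, h.1]
  norm_num

/-- The reflection of a root vector: it changes the sign of the root. -/
private lemma g5_rf_self {β : V d} (h : Root G β) : rf β β = -β := by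
  unfold rf
  rw [mul_div_assoc, div_self (g5_ne h), mul_one, two_smul]
  abel

private lemma g5_rf_rf {β : V d} (h : Root G β) (y : V d) : rf β (rf β y) = y := by
  unfold rf
  rw [inner_sub_left, real_inner_smul_left, div_mul_cancel₀ _ (g5_ne h)]
  have h1 : 2 * ((inner ℝ y β : ℝ) - 2 * inner ℝ y β) / inner ℝ β β =
      -(2 * inner ℝ y β / inner ℝ β β) := by ring
  rw [h1, neg_smul]
  abel

/-- Exchange. -/
private lemma g5_exch (h : Grp G) (hs : Simp G ρ α) (s : Fin d → (V d ≃ₗᵢ[ℝ] V d))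
    (hsG : ∀ i, s i ∈ G) (hsy : ∀ i y, s i y = rf (α i) y) (l : List (Fin d)) {β : V d}
    (hβ : Root G β) (hp : 0 < (inner ℝ ρ β : ℝ))
    (hn : (inner ℝ ρ ((l.map s).prod β) : ℝ) < 0) :
    ∃ (l₁ l₂ : List (Fin d)) (j : Fin d), l = l₁ ++ j :: l₂ ∧ (l₂.map s).prod β = α j := by
  induction l with
  | nil =>
    exfalso
    have h1 : (List.map s ([] : List (Fin d))).prod β = β := rfl
    rw [h1] at hn
    exact lt_asymm hp hn
  | cons j l ih =>
    by_cases h1 : (inner ℝ ρ ((l.map s).prod β) : ℝ) < 0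
    · obtain ⟨l₁, l₂, j', h2, h3⟩ := ih h1
      exact ⟨j :: l₁, l₂, j', by rw [h2]; rfl, h3⟩
    · have hG : (l.map s).prod ∈ G := by
        apply Subgroup.list_prod_mem
        intro x hx
        obtain ⟨i, -, rfl⟩ := List.mem_map.1 hx
        exact hsG i
      have hr : Root G ((l.map s).prod β) := root_map hβ hG
      have h2 : 0 < (inner ℝ ρ ((l.map s).prod β) : ℝ) :=
        lt_of_le_of_ne (not_lt.1 h1) (hs.gen _ hr).symm
      refine ⟨[], l, j, rfl, ?_⟩
      by_contra hne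
      have h3 := perm_pos h hs j hr h2 hne
      have h4 : ((j :: l).map s).prod β = rf (α j) ((l.map s).prod β) := by
        rw [List.map_cons, List.prod_cons, ← hsy]
        rfl
      rw [h4] at hn
      exact lt_asymm h3 hn

/-- Words. -/
private lemma g5_word (h : Grp G) (hs : Simp G ρ α) (s : Fin d → (V d ≃ₗᵢ[ℝ] V d))
    (hsG : ∀ i, s i ∈ G) (hsy : ∀ i y, s i y = rf (α i) y) (n : ℕ) :
    ∀ l : List (Fin d), l.length = n →
      (∀ i, 0 < (inner ℝ ρ ((l.map s).prod (α i)) : ℝ)) → (l.map s).prod = 1 := by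
  induction n using Nat.strong_induction_on with
  | _ n ih =>
    intro l hl hp
    rcases List.eq_nil_or_concat' l with h0 | ⟨l', i, h0⟩
    · rw [h0]
      rfl
    · have e1 : (l.map s).prod = (l'.map s).prod * s i := by
        rw [h0, List.map_append, List.prod_append]
        simp
      have h1 : (inner ℝ ρ ((l'.map s).prod (α i)) : ℝ) < 0 := by
        have h2 := hp i
        rw [e1] at h2
        have h3 : ((l'.map s).prod * s i) (α i) = -((l'.map s).prod (α i)) := by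
          show (l'.map s).prod (s i (α i)) = _
          rw [hsy, g5_rf_self (hs.root i), map_neg]
        rw [h3, inner_neg_right] at h2
        linarith
      obtain ⟨l₁, l₂, j, h2, h3⟩ := g5_exch h hs s hsG hsy l' (hs.root i) (hs.pos i) h1
      have e2 : s j * (l₂.map s).prod = (l₂.map s).prod * s i := by
        ext1 y
        show s j ((l₂.map s).prod y) = (l₂.map s).prod (s i y)
        rw [hsy, hsy, ← h3]
        unfold rf
        rw [LinearIsometryEquiv.inner_map_map, LinearIsometryEquiv.inner_map_map, map_sub,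
          map_smul]
      have e3 : s i * s i = 1 := by
        ext1 y
        show s i (s i y) = y
        rw [hsy, hsy, g5_rf_rf (hs.root i)]
      have e4 : (l.map s).prod = ((l₁ ++ l₂).map s).prod := by
        rw [e1, h2, List.map_append, List.prod_append, List.map_cons, List.prod_cons,
          List.map_append, List.prod_append, e2, mul_assoc, mul_assoc, e3, mul_one]
      rw [e4]
      refine ih (l₁ ++ l₂).length ?_ _ rfl ?_
      · rw [← hl, h0, h2]
        simp only [List.length_append, List.length_cons, List.length_nil]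
        omega
      · intro k
        rw [← e4]
        exact hp k

theorem eq_one (h : Grp G) (hs : Simp G ρ α) {g : V d ≃ₗᵢ[ℝ] V d} (hg : g ∈ G)
    (hp : ∀ i, 0 < (inner ℝ ρ (g (α i)) : ℝ)) : g = 1 := by
  have h1 : ∀ i, ∃ g ∈ G, ∀ y, g y = rf (α i) y := fun i => (hs.root i).2
  choose s hsG hsy using h1
  have h2 : ∀ g ∈ Subgroup.closure {g : V d ≃ₗᵢ[ℝ] V d | ∃ i, ∀ y, g y = rf (α i) y},
      ∃ l : List (Fin d), (l.map s).prod = g := by
    intro g hg
    induction hg using Subgroup.closure_induction_left with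
    | one => exact ⟨[], rfl⟩
    | mul_left x hx y _ ih =>
      obtain ⟨l, rfl⟩ := ih
      obtain ⟨i, hi⟩ := hx
      have h3 : s i = x := by
        ext1 y
        rw [hi, hsy]
      exact ⟨i :: l, by rw [List.map_cons, List.prod_cons, h3]⟩
    | inv_mul_cancel x hx y _ ih =>
      obtain ⟨l, rfl⟩ := ih
      obtain ⟨i, hi⟩ := hx
      have h3 : s i = x⁻¹ := by
        apply eq_inv_of_mul_eq_one_left
        ext1 y
        show s i (x y) = y
        rw [hi, hsy, g5_rf_rf (hs.root i)]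
      exact ⟨i :: l, by rw [List.map_cons, List.prod_cons, h3]⟩
  obtain ⟨l, rfl⟩ := h2 g (by rw [← gen_simple h hs]; exact hg)
  exact g5_word h hs s hsG hsy l.length l rfl hp

end

end Pool.Agent.Lib.MP_1dedaf_gt.RG

/-!
# MP_1dedaf_gt, RG, row G6: chambers
-/

set_option autoImplicit false

namespace Pool.Agent.Lib.MP_1dedaf_gt.RG

section

variable {d : ℕ} {G : Subgroup (V d ≃ₗᵢ[ℝ] V d)} {ρ : V d} {α : Fin d → V d}

private lemma g6_int {y : V d} {i : Fin d} (hα : ‖α i‖ = 1)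
    (hy : y ∈ interior {y : V d | ∀ i, 0 ≤ (inner ℝ y (α i) : ℝ)}) :
    0 < (inner ℝ y (α i) : ℝ) := by
  have h1 : ∀ᶠ s : ℝ in nhds 0, y - s • α i ∈ {y : V d | ∀ i, 0 ≤ (inner ℝ y (α i) : ℝ)} := by
    have hc : Continuous fun s : ℝ => y - s • α i := by fun_prop
    have h2 := hc.continuousAt (x := (0 : ℝ))
    unfold ContinuousAt at h2
    simp only [zero_smul, sub_zero] at h2
    exact h2 (mem_interior_iff_mem_nhds.1 hy)
  obtain ⟨ε, hε, h3⟩ := Metric.eventually_nhds_iff.1 h1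
  have h4 := h3 (y := ε / 2) (by rw [Real.dist_eq, sub_zero, abs_of_pos (by linarith)]; linarith) i
  rw [inner_sub_left, inner_smul_left, real_inner_self_eq_norm_sq, hα] at h4
  simp only [conj_trivial] at h4
  linarith

private lemma g6_cone {z v : V d} (hz : ∀ i, 0 ≤ (inner ℝ z (α i) : ℝ)) (hv : v ∈ cone α) :
    0 ≤ (inner ℝ z v : ℝ) := by
  obtain ⟨c, hc, rfl⟩ := hv
  rw [inner_sum]
  exact Finset.sum_nonneg fun i _ => by rw [inner_smul_right]; exact mul_nonneg (hc i) (hz i)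

/-- ROW G6: chambers. -/
theorem disj_cham (h : Grp G) (hs : Simp G ρ α) : ∀ g ∈ G, g ≠ 1 →
    Disjoint (interior {y : V d | ∀ i, 0 ≤ (inner ℝ y (α i) : ℝ)})
      (g '' interior {y : V d | ∀ i, 0 ≤ (inner ℝ y (α i) : ℝ)}) := by
  intro g hg hne
  rw [Set.disjoint_left]
  rintro _ hz ⟨y, hy, rfl⟩
  apply hne
  refine eq_one h hs hg fun i => ?_
  have hr : Root G (g (α i)) := root_map (hs.root i) hg
  have h1 : 0 < (inner ℝ (g y) (g (α i)) : ℝ) := by
    rw [LinearIsometryEquiv.inner_map_map]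
    exact g6_int (hs.root i).1 hy
  rcases lt_or_gt_of_ne (hs.gen _ hr) with h2 | h2
  · exfalso
    have h3 : 0 < (inner ℝ ρ (-(g (α i))) : ℝ) := by rw [inner_neg_right]; linarith
    have h4 := g6_cone (fun j => (g6_int (hs.root j).1 hz).le) (hs.con _ (root_neg hr) h3)
    rw [inner_neg_right] at h4
    linarith
  · exact h2

end

end Pool.Agent.Lib.MP_1dedaf_gt.RG

/-!
# MP_1dedaf_gt, RG, row G7: irreducible groups
-/

set_option autoImplicit false

namespace Pool.Agent.Lib.MP_1dedaf_gt.RG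

section

variable {d : ℕ} {G : Subgroup (V d ≃ₗᵢ[ℝ] V d)} {ρ : V d} {α : Fin d → V d}

theorem irr_simple (h : Grp G) (hs : Simp G ρ α)
    (hi : ∀ U : Submodule ℝ (V d), (∀ g ∈ G, ∀ v ∈ U, g v ∈ U) → U = ⊥ ∨ U = ⊤) :
    ∀ J : Set (Fin d), J.Nonempty →
      (∀ i ∈ J, ∀ j, j ∉ J → (inner ℝ (α i) (α j) : ℝ) = 0) → J = Set.univ := by
  intro J hJ hort
  set U : Submodule ℝ (V d) := Submodule.span ℝ (α '' J) with hU
  have hα : ∀ i, (inner ℝ (α i) (α i) : ℝ) ≠ 0 := fun i => by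
    rw [inner_self_ne_zero]
    exact hs.indep.ne_zero i
  have horth : ∀ k, k ∉ J → ∀ v ∈ U, (inner ℝ v (α k) : ℝ) = 0 := by
    intro k hk v hv
    refine Submodule.span_induction (p := fun v _ => (inner ℝ v (α k) : ℝ) = 0) ?_ ?_ ?_ ?_ hv
    · rintro _ ⟨i, hiJ, rfl⟩
      exact hort i hiJ k hk
    · exact inner_zero_left _
    · intro x y _ _ hx hy
      rw [inner_add_left, hx, hy, add_zero]
    · intro a x _ hx
      rw [real_inner_smul_left, hx, mul_zero]
  have hgen : ∀ g ∈ G, ∀ v, v ∈ U ↔ g v ∈ U := by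
    intro g hg
    rw [gen_simple h hs] at hg
    refine Subgroup.closure_induction (p := fun g _ => ∀ v, v ∈ U ↔ g v ∈ U) ?_ ?_ ?_ ?_ hg
    · rintro g ⟨k, hk⟩ v
      rw [hk]
      by_cases hkJ : k ∈ J
      · have h1 : (2 * inner ℝ v (α k) / inner ℝ (α k) (α k)) • α k ∈ U :=
          U.smul_mem _ (Submodule.subset_span ⟨k, hkJ, rfl⟩)
        exact (U.sub_mem_iff_left h1).symm
      · constructor
        · intro hv
          have h1 := horth k hkJ v hv
          unfold rf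
          rw [h1, mul_zero, zero_div, zero_smul, sub_zero]
          exact hv
        · intro hv
          have h1 := horth k hkJ _ hv
          unfold rf at h1
          rw [inner_sub_left, real_inner_smul_left, div_mul_cancel₀ _ (hα k)] at h1
          have h2 : (inner ℝ v (α k) : ℝ) = 0 := by linarith
          unfold rf at hv
          rw [h2, mul_zero, zero_div, zero_smul, sub_zero] at hv
          exact hv
    · intro v
      exact Iff.rfl
    · intro x y _ _ hx hy v
      exact (hy v).trans (hx (y v))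
    · intro x _ hx v
      have h1 : x (x⁻¹ v) = v := by
        show (x * x⁻¹) v = v
        rw [mul_inv_cancel]
        rfl
      have h2 := hx (x⁻¹ v)
      rw [h1] at h2
      exact h2.symm
  rcases hi U (fun g hg v hv => (hgen g hg v).1 hv) with hb | ht
  · obtain ⟨i, hiJ⟩ := hJ
    have h1 : α i ∈ U := Submodule.subset_span ⟨i, hiJ, rfl⟩
    rw [hb, Submodule.mem_bot] at h1
    exact absurd h1 (hs.indep.ne_zero i)
  · rw [Set.eq_univ_iff_forall]
    intro j
    by_contra hj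
    have h1 := hs.indep.notMem_span_image hj
    rw [← hU, ht] at h1
    exact h1 Submodule.mem_top

end

end Pool.Agent.Lib.MP_1dedaf_gt.RG

/-!
# MP_1dedaf_gt, RG, row G8: assembly
-/

set_option autoImplicit false

namespace Pool.Agent.Lib.MP_1dedaf_gt.RG

/-- A fixed vector of an irreducible group is zero in dimension at least two. -/
lemma g8_ess {d : ℕ} (hd : 2 ≤ d) {G : Subgroup (V d ≃ₗᵢ[ℝ] V d)}
    (hi : ∀ U : Submodule ℝ (V d), (∀ g ∈ G, ∀ v ∈ U, g v ∈ U) → U = ⊥ ∨ U = ⊤) (v : V d)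
    (hv : ∀ g ∈ G, g v = v) : v = 0 := by
  by_contra hne
  rcases hi (Submodule.span ℝ {v}) (by
    intro g hg w hw
    obtain ⟨c, rfl⟩ := Submodule.mem_span_singleton.1 hw
    rw [map_smul, hv g hg]
    exact hw) with h | h
  · rw [Submodule.span_singleton_eq_bot] at h
    exact hne h
  · have h1 : Module.finrank ℝ (Submodule.span ℝ {v}) = 1 := finrank_span_singleton hne
    rw [h, finrank_top, finrank_euclideanSpace_fin] at h1
    omega

/-- ROW G8. -/
theorem exists_chamber {d : ℕ} (hd : 2 ≤ d) {G : Subgroup (V d ≃ₗᵢ[ℝ] V d)} (hf : Finite G)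
    (hg : G = Subgroup.closure {g | g ∈ G ∧ ∃ β : V d, β ≠ 0 ∧
      ∀ y, g y = y - (2 * inner ℝ y β / inner ℝ β β) • β})
    (hi : ∀ U : Submodule ℝ (V d), (∀ g ∈ G, ∀ v ∈ U, g v ∈ U) → U = ⊥ ∨ U = ⊤) :
    ∃ α : Fin d → V d,
      (∀ i, ∃ g ∈ G, ∀ y : V d, g y = y - (2 * inner ℝ y (α i) / inner ℝ (α i) (α i)) • α i) ∧
      LinearIndependent ℝ α ∧ (∀ i j, i ≠ j → (inner ℝ (α i) (α j) : ℝ) ≤ 0) ∧
      (∀ g ∈ G, g ≠ 1 →
        Disjoint (interior {y : V d | ∀ i, 0 ≤ (inner ℝ y (α i) : ℝ)})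
          (g '' interior {y : V d | ∀ i, 0 ≤ (inner ℝ y (α i) : ℝ)})) ∧
      ∀ J : Set (Fin d), J.Nonempty →
        (∀ i ∈ J, ∀ j, j ∉ J → (inner ℝ (α i) (α j) : ℝ) = 0) → J = Set.univ := by
  have h : Grp G := ⟨hf, hg, fun v hv => g8_ess hd hi v hv⟩
  obtain ⟨ρ, α, hs⟩ := exists_simp h
  exact ⟨α, fun i => (hs.root i).2, hs.indep, hs.obt, disj_cham h hs, irr_simple h hs hi⟩

end Pool.Agent.Lib.MP_1dedaf_gt.RG
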