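import Pool.Agent.Lib.MP_1dedaf_gt.RG.A

/-!
# MP_1dedaf_gt, RG: the group generated by a set of reflections
-/

set_option autoImplicit false

namespace Pool.Agent.Lib.MP_1dedaf_gt.RG

/-- The formula of the reflection. -/
private lemma b_form {d : ℕ} (β y : V d) :
    (Submodule.span ℝ {β})ᗮ.reflection y = rf β y := by
  rw [Submodule.reflection_orthogonal_apply, Submodule.reflection_singleton_apply]
  unfold rf
  rw [real_inner_self_eq_norm_sq, real_inner_comm]
  show -(2 • (inner ℝ y β / ‖β‖ ^ 2) • β - y) = y - (2 * inner ℝ y β / ‖β‖ ^ 2) • β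
  rw [two_nsmul, ← add_smul, neg_sub]
  congr 2
  ring

private lemma b_rf_rf {d : ℕ} {β : V d} (y : V d) : rf β (rf β y) = y := by
  rw [← b_form, ← b_form, Submodule.reflection_reflection]

/-- The group generated by the reflections of a set `B`; `P` is any property which holds for the
compositions of reflections. -/
theorem exists_group {d : ℕ} (hd : 2 ≤ d) {B : Set (V d)} (h0 : ∀ β ∈ B, β ≠ 0)
    {P : (V d → V d) → Prop} (h1 : P id) (h2 : ∀ β ∈ B, ∀ g, P g → P (rf β ∘ g))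
    (hf : Set.Finite {g | P g})
    (hi : ∀ U : Submodule ℝ (V d), (∀ β ∈ B, ∀ v ∈ U, rf β v ∈ U) → U = ⊥ ∨ U = ⊤) :
    ∃ (G : Subgroup (V d ≃ₗᵢ[ℝ] V d)) (α : Fin d → V d), Finite G ∧
      (∀ i, ∃ g ∈ G, ∀ y : V d, g y = y - (2 * inner ℝ y (α i) / inner ℝ (α i) (α i)) • α i) ∧
      LinearIndependent ℝ α ∧ (∀ i j, i ≠ j → (inner ℝ (α i) (α j) : ℝ) ≤ 0) ∧
      (∀ g ∈ G, g ≠ 1 →
        Disjoint (interior {y : V d | ∀ i, 0 ≤ (inner ℝ y (α i) : ℝ)})
          (g '' interior {y : V d | ∀ i, 0 ≤ (inner ℝ y (α i) : ℝ)})) ∧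
      (∀ J : Set (Fin d), J.Nonempty →
        (∀ i ∈ J, ∀ j, j ∉ J → (inner ℝ (α i) (α j) : ℝ) = 0) → J = Set.univ) ∧
      ∀ g ∈ G, P g := by
  obtain ⟨S, hS⟩ : ∃ S : Set (V d ≃ₗᵢ[ℝ] V d), ∀ g, g ∈ S ↔ ∃ β ∈ B, ∀ y, g y = rf β y :=
    ⟨{g | ∃ β ∈ B, ∀ y, g y = rf β y}, fun g => Iff.rfl⟩
  have hP : ∀ g ∈ Subgroup.closure S, P g := by
    intro g hg
    induction hg using Subgroup.closure_induction_left with
    | one => exact h1
    | mul_left x hx y _ ih =>
      obtain ⟨β, hβ, hxβ⟩ := (hS x).1 hx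
      have h3 : (⇑(x * y) : V d → V d) = rf β ∘ y := by
        funext z
        exact hxβ (y z)
      rw [h3]
      exact h2 β hβ _ ih
    | inv_mul_cancel x hx y _ ih =>
      obtain ⟨β, hβ, hxβ⟩ := (hS x).1 hx
      have h3 : (⇑(x⁻¹ * y) : V d → V d) = rf β ∘ y := by
        funext z
        show x.symm (y z) = rf β (y z)
        rw [LinearIsometryEquiv.symm_apply_eq, hxβ, b_rf_rf]
      rw [h3]
      exact h2 β hβ _ ih
  have hfin : Finite (Subgroup.closure S) := by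
    have h3 : Finite {g : V d → V d | P g} := hf
    refine Finite.of_injective
      (fun g : Subgroup.closure S => (⟨⇑(g : V d ≃ₗᵢ[ℝ] V d), hP _ g.2⟩ : {g : V d → V d | P g})) ?_
    intro a b hab
    apply Subtype.ext
    apply LinearIsometryEquiv.ext
    intro z
    exact congrFun (congrArg Subtype.val hab) z
  have hgen : Subgroup.closure S = Subgroup.closure {g | g ∈ Subgroup.closure S ∧
      ∃ β : V d, β ≠ 0 ∧ ∀ y, g y = y - (2 * inner ℝ y β / inner ℝ β β) • β} := by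
    apply le_antisymm
    · apply Subgroup.closure_mono
      intro g hg
      obtain ⟨β, hβ, hgβ⟩ := (hS g).1 hg
      exact ⟨Subgroup.subset_closure hg, β, h0 β hβ, hgβ⟩
    · rw [Subgroup.closure_le]
      exact fun g hg => hg.1
  have hirr : ∀ U : Submodule ℝ (V d),
      (∀ g ∈ Subgroup.closure S, ∀ v ∈ U, g v ∈ U) → U = ⊥ ∨ U = ⊤ := by
    intro U hU
    apply hi U
    intro β hβ v hv
    have h3 : (Submodule.span ℝ {β})ᗮ.reflection ∈ S := (hS _).2 ⟨β, hβ, b_form β⟩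
    have h4 := hU _ (Subgroup.subset_closure h3) v hv
    rwa [b_form] at h4
  obtain ⟨α, k1, k2, k3, k4, k5⟩ := exists_chamber hd hfin hgen hirr
  exact ⟨Subgroup.closure S, α, hfin, k1, k2, k3, k4, k5, hP⟩

end Pool.Agent.Lib.MP_1dedaf_gt.RG
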